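import Pool.Agent.Helper94.PU.Sheet
import Pool.Agent.H11ST.Asm
open MeasureTheory Metric Set Filter Topology Real
open scoped ENNReal NNReal

/-!
Row FIN of the sheet PU: the final bound.
-/

namespace H11ST
namespace PU

theorem fin (hSCL : ST_SCL) (hUNIT : ST_UNIT) : ST_FIN := by
  obtain ⟨C, hC, hB⟩ := hUNIT
  refine ⟨C, hC, fun t ht0 ht1 => ?_⟩
  have h1t : 0 < 1 - t := sub_pos.2 ht1
  set B : ℝ := C * (1 + Real.log (1 + Real.log (1 / (1 - t)))) with hBdef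
  have hl1 : 0 ≤ Real.log (1 / (1 - t)) := Real.log_nonneg (by
    rw [le_div_iff₀ h1t]
    linarith)
  have hl2 : 0 ≤ Real.log (1 + Real.log (1 / (1 - t))) := Real.log_nonneg (by linarith)
  have hB0 : 0 ≤ B := mul_nonneg hC.le (by linarith)
  have hle : Nloc 2 t ≤ (⌊B⌋₊ : ℕ) := by
    refine Nloc_le fun A S x r hL Y hY hb hT => ?_
    refine Nat.le_floor ?_
    obtain ⟨y, hy⟩ := hY
    have hreg := reg_at (by norm_num) hL.adm hL.compact.isClosed (hT y hy)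
    obtain ⟨A', S', Y', hL', hA', hr', hc, hY'⟩ := hSCL A S x r hL.adm hL.compact.isClosed hreg t Y
      fun y hy => ⟨hb y hy, hT y hy⟩
    rw [← hc]
    exact hB A' S' hL' hA' hr' t ht0 ht1 Y' hY'
  obtain ⟨n, hn⟩ := ENat.ne_top_iff_exists.1 (ne_top_of_le_ne_top (ENat.natCast_ne_top _) hle)
  refine ⟨n, hn.symm, ?_⟩
  rw [← hn] at hle
  have h1 : n ≤ ⌊B⌋₊ := by exact_mod_cast hle
  calc (n : ℝ) ≤ (⌊B⌋₊ : ℝ) := by exact_mod_cast h1
    _ ≤ _ := Nat.floor_le hB0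

end PU
end H11ST
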