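import Pool.Agent.Helper94.PU.Pl
open MeasureTheory Metric Set Filter Topology Real
open scoped ENNReal NNReal

/-!
Row FRM of the sheet PU: frames.
-/

namespace H11ST
namespace PU
namespace Frames33

/-- rotation by a right angle -/
noncomputable def J (w : E 2) : E 2 := !₂[-(w 1), w 0]

theorem J0 (w : E 2) : J w 0 = -(w 1) := rfl
theorem J1 (w : E 2) : J w 1 = w 0 := rfl

/-- the tangent of the frame of orientation `s` with `e1 = w` -/
noncomputable def G1 (s : ℝ) (w : E 2) : E 2 := (1 / 2 : ℝ) • w - (s * (√3 / 2)) • J w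
/-- the normal of the frame of orientation `s` with `e1 = w` -/
noncomputable def G2 (s : ℝ) (w : E 2) : E 2 := (√3 / 2) • w + (s / 2) • J w

theorem frame_of {τ ν w : E 2} (h : Fr τ ν) (hw : w = e1 τ ν) :
    ∃ s : ℝ, (s = 1 ∨ s = -1) ∧ τ = G1 s w ∧ ν = G2 s w := by
  have h1 := norm2 τ
  have h2 := norm2 ν
  have h3 := h.o
  rw [h.t1] at h1
  rw [h.n1] at h2
  rw [inner2] at h3
  set s : ℝ := τ 0 * ν 1 - τ 1 * ν 0 with hs
  have hs2 : s ^ 2 = 1 := by
    have : s ^ 2 =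
      (τ 0 ^ 2 + τ 1 ^ 2) * (ν 0 ^ 2 + ν 1 ^ 2) - (τ 0 * ν 0 + τ 1 * ν 1) ^ 2 := by rw [hs]; ring
    rw [this, ← h1, ← h2, h3]
    norm_num
  have hn0 : ν 0 = -(s * τ 1) := by
    have e : ν 0 + s * τ 1 = ν 0 * (1 - (τ 0 ^ 2 + τ 1 ^ 2)) + τ 0 * (τ 0 * ν 0 + τ 1 * ν 1) := by
      rw [hs]; ring
    rw [← h1, h3] at e
    linarith
  have hn1 : ν 1 = s * τ 0 := by
    have e : ν 1 - s * τ 0 = ν 1 * (1 - (τ 0 ^ 2 + τ 1 ^ 2)) + τ 1 * (τ 0 * ν 0 + τ 1 * ν 1) := by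
      rw [hs]; ring
    rw [← h1, h3] at e
    linarith
  have hw0 : w 0 = -(√3 / 2 * (s * τ 1)) + 1 / 2 * τ 0 := by
    rw [hw, e1]
    simp only [PiLp.add_apply, PiLp.smul_apply, smul_eq_mul]
    rw [hn0]
    ring
  have hw1 : w 1 = √3 / 2 * (s * τ 0) + 1 / 2 * τ 1 := by
    rw [hw, e1]
    simp only [PiLp.add_apply, PiLp.smul_apply, smul_eq_mul]
    rw [hn1]
  refine ⟨s, ?_, ?_, ?_⟩
  · have : (s - 1) * (s + 1) = 0 := by linarith
    rcases mul_eq_zero.1 this with h | h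
    · exact Or.inl (by linarith)
    · exact Or.inr (by linarith)
  · apply ext2
    · simp only [G1, PiLp.sub_apply, PiLp.smul_apply, smul_eq_mul, J0]
      rw [hw0, hw1]
      linear_combination (-(3 / 4) * τ 0) * hs2 - (τ 0 * s ^ 2 / 4) * s3
    · simp only [G1, PiLp.sub_apply, PiLp.smul_apply, smul_eq_mul, J1]
      rw [hw0, hw1]
      linear_combination (-(3 / 4) * τ 1) * hs2 - (τ 1 * s ^ 2 / 4) * s3
  · apply ext2
    · simp only [G2, PiLp.add_apply, PiLp.smul_apply, smul_eq_mul, J0]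
      rw [hw0, hw1, hn0]
      linear_combination (√3 / 4 * τ 0) * hs2 + (s * τ 1 / 4) * s3
    · simp only [G2, PiLp.add_apply, PiLp.smul_apply, smul_eq_mul, J1]
      rw [hw0, hw1, hn1]
      linear_combination (√3 / 4 * τ 1) * hs2 - (s * τ 0 / 4) * s3

/-- a sign -/
def sg (b : Bool) : ℝ := if b then 1 else -1

theorem sg_of {s : ℝ} (h : s = 1 ∨ s = -1) : ∃ b, s = sg b := by
  rcases h with h | h
  · exact ⟨true, by rw [h]; simp [sg]⟩
  · exact ⟨false, by rw [h]; simp [sg]⟩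

/-- the eight candidates -/
noncomputable def cand (w : E 2) (b : Bool × Bool × Bool) : E 2 × E 2 :=
  (sg b.2.2 • G1 (sg b.2.1) (sg b.1 • w), G2 (sg b.2.1) (sg b.1 • w))

theorem cand_mem {τ ν w : E 2} (h : Fr τ ν)
    (hw : w = e1 τ ν ∨ w = -e1 τ ν ∨ w = e2 τ ν ∨ w = -e2 τ ν) : ∃ b, cand w b = (τ, ν) := by
  have key : ∀ (σ : E 2) (b₁ b₂ : Bool), Fr σ ν → τ = sg b₂ • σ → sg b₁ • w = e1 σ ν →
      ∃ b, cand w b = (τ, ν) := by
    intro σ b₁ b₂ hσ hτ hw'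
    obtain ⟨s, hs, h1, h2⟩ := frame_of hσ hw'
    obtain ⟨b, rfl⟩ := sg_of hs
    refine ⟨(b₁, b, b₂), ?_⟩
    rw [cand]
    dsimp only
    rw [← h1, ← h2, ← hτ]
  rcases hw with hw | hw | hw | hw
  · exact key τ true true h (by simp [sg]) (by simp [sg, hw])
  · exact key τ false true h (by simp [sg]) (by simp [sg, hw])
  · exact key (-τ) true false h.neg (by simp [sg]) (by rw [e1_neg]; simp [sg, hw])
  · exact key (-τ) false false h.neg (by simp [sg]) (by rw [e1_neg]; simp [sg, hw])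

/-- the frame of three arms -/
theorem frame_arm {a b c : E 2} (ha : ‖a‖ = 1) (hb : ‖b‖ = 1) (hc : ‖c‖ = 1)
    (hab : inner ℝ a b = -(1 / 2 : ℝ)) (hac : inner ℝ a c = -(1 / 2 : ℝ))
    (hbc : inner ℝ b c = -(1 / 2 : ℝ)) :
    Fr a ((√3 / 3) • (b - c)) ∧ b = e2 a ((√3 / 3) • (b - c)) ∧
      c = -e1 a ((√3 / 3) • (b - c)) := by
  have h33 : √3 / 2 * (√3 / 3) = (1 / 2 : ℝ) := by linarith [s3]
  have hsum : a + b + c = 0 := by
    have h0 : inner ℝ (a + b + c) (a + b + c) = (0 : ℝ) := by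
      simp only [inner_add_left, inner_add_right, real_inner_self_eq_norm_sq, ha, hb, hc]
      rw [real_inner_comm a b, real_inner_comm a c, real_inner_comm b c, hab, hac, hbc]
      norm_num
    exact inner_self_eq_zero.1 h0
  have hca : c = -a - b := by
    have : c = (a + b + c) - a - b := by abel
    rw [hsum] at this
    rw [this]; abel
  refine ⟨⟨ha, ?_, ?_⟩, ?_, ?_⟩
  · have h1 : ‖(√3 / 3) • (b - c)‖ ^ 2 = 1 := by
      rw [norm_smul, mul_pow, ← real_inner_self_eq_norm_sq (b - c)]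
      simp only [inner_sub_left, inner_sub_right, real_inner_self_eq_norm_sq, hb, hc]
      rw [real_inner_comm b c, hbc, Real.norm_eq_abs, sq_abs]
      nlinarith [s3]
    have h2 := norm_nonneg ((√3 / 3) • (b - c))
    nlinarith
  · rw [inner_smul_right, inner_sub_right, hab, hac]
    ring
  · rw [e2, smul_smul, h33, hca]
    module
  · rw [e1, smul_smul, h33, hca]
    module

theorem sort3 (p : Fin 3 → ℝ) : ∃ σ : Equiv.Perm (Fin 3), p (σ 1) ≤ p (σ 0) ∧ p (σ 0) ≤ p (σ 2) := by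
  have h := Tuple.monotone_sort p
  refine ⟨(Equiv.swap (0 : Fin 3) 1).trans (Tuple.sort p), ?_, ?_⟩
  · have h1 := h (show (0 : Fin 3) ≤ 1 by decide)
    simpa using h1
  · have h1 := h (show (1 : Fin 3) ≤ 2 by decide)
    have e : Equiv.swap (0 : Fin 3) 1 2 = 2 := by decide
    rw [Equiv.trans_apply, Equiv.trans_apply, e, Equiv.swap_apply_left]
    exact h1

theorem exists_frame {S : Set (E 2)} {y : E 2} {u : Fin 3 → E 2} {ε : ℝ} (T : Tri S y u ε)
    (h0 : 49 / 50 ≤ ‖y‖) (h1 : ‖y‖ ≤ 1) : ∃ τ ν, Fr τ ν ∧ TA S τ ν y ∧ InG τ ν y := by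
  obtain ⟨σ, hσ1, hσ2⟩ := sort3 fun i => (inner ℝ y (u i) : ℝ)
  have Tσ := tri_perm T σ
  set a := u (σ 0) with ha
  set b := u (σ 1) with hb
  set c := u (σ 2) with hc
  have hne : ∀ i j : Fin 3, i ≠ j → σ i ≠ σ j := fun i j h h' => h (σ.injective h')
  obtain ⟨hF, e2', e1'⟩ := frame_arm (T.norm (σ 0)) (T.norm (σ 1)) (T.norm (σ 2))
    (T.ang _ _ (hne 0 1 (by decide))) (T.ang _ _ (hne 0 2 (by decide)))
    (T.ang _ _ (hne 1 2 (by decide)))
  refine ⟨a, (√3 / 3) • (b - c), hF, ⟨_, _, Tσ, rfl, e2', e1'⟩, ?_⟩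
  have hsum : inner ℝ y a + inner ℝ y b + inner ℝ y c = (0 : ℝ) := by
    have h2 : b + c = -a := by
      rw [← hb, ← hc, ← ha] at e2' e1'
      have h3 : b + c = e2 a ((√3 / 3) • (b - c)) + -e1 a ((√3 / 3) • (b - c)) := by
        rw [← e2', ← e1']
      rw [h3, e1, e2]
      module
    rw [add_assoc, ← inner_add_right y b c, h2, inner_neg_right]
    ring
  have hq : inner ℝ y ((√3 / 3) • (b - c)) = √3 / 3 * (inner ℝ y b - inner ℝ y c) := by
    rw [inner_smul_right, inner_sub_right]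
  have hsq := hF.sq y
  unfold InG
  set q : ℝ := inner ℝ y ((√3 / 3) • (b - c)) with hqd
  rw [← ha] at hsq
  set pa : ℝ := inner ℝ y a with hpa
  set pb : ℝ := inner ℝ y b with hpb
  set pc : ℝ := inner ℝ y c with hpc
  have h3 : (0 : ℝ) ≤ √3 := Real.sqrt_nonneg 3
  have hq0 : q ≤ 0 := by
    rw [hq]
    have : pb - pc ≤ 0 := by linarith
    nlinarith
  have hq2 : q ^ 2 = (pb - pc) ^ 2 / 3 := by
    rw [hq]
    have : (√3 / 3 * (pb - pc)) ^ 2 = (√3 * √3) / 9 * (pb - pc) ^ 2 := by ring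
    rw [this, s3]
    ring
  have hpa2 : 3 * pa ^ 2 ≤ q ^ 2 := by
    rw [hq2]
    have h4 : pa = -(pb + pc) := by linarith
    have h5 : 0 ≤ (pc - pb) - 3 * pa := by linarith
    have h6 : 0 ≤ (pc - pb) + 3 * pa := by linarith
    nlinarith [mul_nonneg h5 h6]
  have hy2 : ‖y‖ ^ 2 ≤ 1 := by nlinarith [norm_nonneg y]
  have hy3 : (49 / 50 : ℝ) ^ 2 ≤ ‖y‖ ^ 2 := pow_le_pow_left₀ (by norm_num) h0 2
  have h7 : |pa| ≤ 1 / 2 := abs_le_of_sq_le_sq (by nlinarith) (by norm_num)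
  have h8 : -1 ≤ q := by nlinarith
  have h9 : q ≤ -(1 / 2) := by nlinarith
  exact ⟨by linarith, by linarith⟩

end Frames33

theorem frm : ST_FRM := by
  classical
  refine ⟨fun S y u ε T h0 h1 => Frames33.exists_frame T h0 h1, fun w => ?_⟩
  refine ⟨(Finset.univ : Finset (Bool × Bool × Bool)).image (Frames33.cand w), ?_, fun τ ν h hw => ?_⟩
  · exact Finset.card_image_le.trans (by decide)
  · obtain ⟨b, hb⟩ := Frames33.cand_mem h hw
    exact Finset.mem_image.2 ⟨b, Finset.mem_univ b, hb⟩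

end PU
end H11ST
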