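import Pool.Agent.Helper94.PU.Sheet
import Pool.Agent.Helper94.ST.GI
open MeasureTheory Metric Set Filter Topology Real
open scoped ENNReal NNReal

/-!
Row LEV of the sheet PU: a level with at most `999` points, all of them line points.
-/

namespace H11ST
namespace PU
namespace Level

/-- Eilenberg's inequality with finitely many exceptional radii -/
theorem eil {V : Type*} [NormedAddCommGroup V] [InnerProductSpace ℝ V] [MeasurableSpace V]
    [BorelSpace V] {S : Set V} (hS : IsClosed S) (x : V) (m : ℕ) (F : Finset ℝ) :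
    ∀ a b : ℝ, (∀ ρ ∈ Ioo a b, ρ ∉ F → (m : ℕ∞) ≤ (S ∩ sphere x ρ).encard) →
      (m : ℝ≥0∞) * ENNReal.ofReal (b - a) ≤ μH[1] (S ∩ (ball x b \ closedBall x a)) := by
  classical
  induction F using Finset.induction_on with
  | empty => exact fun a b h => eilenberg S x a b m fun ρ hρ => h ρ hρ (Finset.notMem_empty ρ)
  | insert c F hc ih =>
    intro a b h
    by_cases hcab : c ∈ Ioo a b
    · have h1 := ih a c fun ρ hρ hF => h ρ ⟨hρ.1, hρ.2.trans hcab.2⟩ (by
        rw [Finset.mem_insert, not_or]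
        exact ⟨hρ.2.ne, hF⟩)
      have h2 := ih c b fun ρ hρ hF => h ρ ⟨hcab.1.trans hρ.1, hρ.2⟩ (by
        rw [Finset.mem_insert, not_or]
        exact ⟨hρ.1.ne', hF⟩)
      have h3 : ENNReal.ofReal (b - a) = ENNReal.ofReal (c - a) + ENNReal.ofReal (b - c) := by
        rw [← ENNReal.ofReal_add (by linarith [hcab.1]) (by linarith [hcab.2])]
        ring_nf
      rw [h3, mul_add]
      refine (add_le_add h1 h2).trans ?_
      rw [← measure_union (μ := μH[1])]
      · refine measure_mono ?_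
        rintro z (hz | hz)
        · exact ⟨hz.1, ball_subset_ball hcab.2.le hz.2.1, hz.2.2⟩
        · exact ⟨hz.1, hz.2.1, fun hz' => hz.2.2 (closedBall_subset_closedBall hcab.1.le hz')⟩
      · rw [disjoint_left]
        rintro z hz hz'
        exact hz'.2.2 (ball_subset_closedBall hz.2.1)
      · exact hS.measurableSet.inter (measurableSet_ball.diff measurableSet_closedBall)
    · refine ih a b fun ρ hρ hF => h ρ hρ ?_
      rw [Finset.mem_insert, not_or]
      exact ⟨fun he => hcab (he ▸ hρ), hF⟩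

end Level

theorem lev : ST_LEV := by
  classical
  refine ⟨999, fun A S L hA hreg => ?_⟩
  obtain ⟨F, hF⟩ : ∃ F : Finset ℝ, ∀ ρ : ℝ, 0 < ρ → ρ ≤ 993 / 1000 →
      ∀ z ∈ S ∩ sphere 0 ρ, ρ ∉ F → Good S 0 z := by
    have h := fbad 2 A S 0 1 L hreg (993 / 1000) (by norm_num)
    refine ⟨h.toFinset, fun ρ h0 h1 z hz hF => ?_⟩
    by_contra hg
    exact hF (h.mem_toFinset.2 ⟨h0, h1, z, hz, hg⟩)
  by_contra hcon
  have key : ∀ ρ ∈ Ioo (49 / 50 : ℝ) (992 / 1000), ρ ∉ F →
      ((1000 : ℕ) : ℕ∞) ≤ (S ∩ sphere (0 : E 2) ρ).encard := by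
    intro ρ hρ hρF
    by_contra hlt
    rw [not_le] at hlt
    have hfin : (S ∩ sphere (0 : E 2) ρ).Finite :=
      Set.finite_of_encard_le_coe (k := 1000) hlt.le
    refine hcon ⟨ρ, hfin.toFinset, ⟨L, hA, hreg, hρ.1.le, by linarith [hρ.2], fun z => ?_,
      fun z hz => ?_⟩, ?_⟩
    · exact hfin.mem_toFinset
    · obtain ⟨u, ε, h1, -⟩ := hF ρ (by linarith [hρ.1]) (by linarith [hρ.2]) z
        (hfin.mem_toFinset.1 hz) hρF
      exact ⟨u, ε, h1⟩
    · rw [hfin.encard_eq_coe_toFinset_card] at hlt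
      have : hfin.toFinset.card < 1000 := by exact_mod_cast hlt
      omega
  obtain ⟨ρ, hρ, hρF⟩ : ∃ ρ ∈ Ioo (99 / 100 : ℝ) (992 / 1000), ρ ∉ F := by
    by_contra h
    have h1 : Ioo (99 / 100 : ℝ) (992 / 1000) ⊆ (F : Set ℝ) := fun ρ hρ => by
      by_contra hF'
      exact h ⟨ρ, hρ, fun h2 => hF' (Finset.mem_coe.2 h2)⟩
    exact (Set.Ioo_infinite (by norm_num)) (F.finite_toSet.subset h1)
  have hne : (S ∩ sphere (0 : E 2) ρ).Nonempty := by
    rw [← Set.encard_pos]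
    refine lt_of_lt_of_le ?_ (key ρ ⟨by linarith [hρ.1], hρ.2⟩ hρF)
    exact_mod_cast Nat.succ_pos 999
  have hlen := len_circle L hA (by linarith [hρ.1]) (by linarith [hρ.2]) hne
  have h1 := Level.eil L.hS (0 : E 2) 1000 F (49 / 50) ρ fun s hs hsF =>
    key s ⟨hs.1, hs.2.trans hρ.2⟩ hsF
  have h2 : μH[1] (S ∩ (ball (0 : E 2) ρ \ closedBall 0 (49 / 50))) ≤ μH[1] (S ∩ ball 0 ρ) :=
    measure_mono fun z hz => ⟨hz.1, hz.2.1⟩
  have h3 : μH[1] (S ∩ ball (0 : E 2) ρ) ≠ ∞ :=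
    ne_top_of_le_ne_top L.fin (measure_mono (inter_subset_inter_right _
      (ball_subset_ball (by linarith [hρ.2]))))
  have h4 := ENNReal.toReal_mono h3 (h1.trans h2)
  rw [ENNReal.toReal_mul, ENNReal.toReal_natCast,
    ENNReal.toReal_ofReal (by linarith [hρ.1])] at h4
  have h5 : (μH[1] (S ∩ ball (0 : E 2) ρ)).toReal = len S 0 ρ := rfl
  rw [h5] at h4
  push_cast at h4
  have h6 := Real.pi_lt_four
  have h7 : 2 * π * ρ ≤ 8 * ρ := by nlinarith [hρ.1]
  linarith [hρ.1, hρ.2]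

end PU
end H11ST
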