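import Pool.Agent.Helper94.PU.Sheet
open MeasureTheory Metric Set Filter Topology Real
open scoped ENNReal NNReal

/-!
Row UNIT of the sheet PU: the bound in the unit disc.
-/

namespace H11ST
namespace PU
namespace Unit33

variable {A S : Set (E 2)} {ρ₀ : ℝ} {P : Finset (E 2)}

/-- inner points: at most `P.card` -/
theorem inner_card (B : Base A S ρ₀ P) (Y : Finset (E 2)) (hY : ∀ y ∈ Y, ‖y‖ ≤ ρ₀)
    (hT : ∀ y ∈ Y, ∃ u ε, Tri S y u ε) : Y.card ≤ P.card := by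
  classical
  rcases Y.eq_empty_or_nonempty with h0 | h0
  · rw [h0]; simp
  have hS : ∀ y ∈ Y, y ∈ ball (0 : E 2) ρ₀ := by
    intro y hy
    rw [mem_ball, dist_zero_right]
    refine lt_of_le_of_ne (hY y hy) fun he => ?_
    obtain ⟨u, ε, T⟩ := hT y hy
    obtain ⟨w, δ, hw⟩ := B.lin y ((B.mem y).2 ⟨T.y_mem, by
      rw [mem_sphere, dist_zero_right]; exact he⟩)
    exact lin_not_tri hw T
  have h1 := B.L.sphere_count B.cl Y h0 hS hT le_rfl B.r1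
  have h2 : S ∩ sphere (0 : E 2) ρ₀ = (P : Set (E 2)) := by
    ext z
    rw [Finset.mem_coe, B.mem]
  rw [h2, Set.encard_coe_eq_coe_finsetCard] at h1
  have h3 : Y.card + 2 ≤ P.card := by exact_mod_cast h1
  omega

/-- points of one frame -/
theorem frame_card (hCNTF : ST_CNTF) (B : Base A S ρ₀ P) {t : ℝ} (ht : ρ₀ < t) (ht1 : t < 1)
    {τ ν : E 2} (hF : Fr τ ν) (Y : Finset (E 2))
    (hY : ∀ y ∈ Y, TA S τ ν y ∧ InG τ ν y ∧ ρ₀ < ‖y‖ ∧ ‖y‖ ≤ t) :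
    (Y.card : ℝ) ≤ 2 * (5 * P.card + 2 * (2 + 2 * Real.log (1 + Real.log (1 / (1 - t))))) := by
  classical
  have hF' : Fr (-τ) ν := ⟨by rw [norm_neg]; exact hF.t1, hF.n1, by rw [inner_neg_left, hF.o, neg_zero]⟩
  set Y₁ := Y.filter fun y => (inner ℝ y τ : ℝ) ≤ 1 + inner ℝ y ν with hY₁
  set Y₂ := Y.filter fun y => ¬ (inner ℝ y τ : ℝ) ≤ 1 + inner ℝ y ν with hY₂
  have hc : Y₁.card + Y₂.card = Y.card := Finset.card_filter_add_card_filter_not _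
  have h1 := hCNTF A S ρ₀ P B t ht ht1 τ ν hF Y₁ fun y hy => by
    obtain ⟨hy1, hy2⟩ := Finset.mem_filter.1 hy
    obtain ⟨h1, h2, h3, h4⟩ := hY y hy1
    exact ⟨Or.inl h1, h2, h3, h4, hy2⟩
  have h2 := hCNTF A S ρ₀ P B t ht ht1 (-τ) ν hF' Y₂ fun y hy => by
    obtain ⟨hy1, hy2⟩ := Finset.mem_filter.1 hy
    obtain ⟨h1, h2, h3, h4⟩ := hY y hy1
    have hn : ‖y‖ < 1 := h4.trans_lt ht1
    have h5 : -1 ≤ (inner ℝ y ν : ℝ) := by
      have h6 := abs_real_inner_le_norm y ν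
      rw [hF.n1, mul_one] at h6
      have h7 := neg_abs_le (inner ℝ y ν : ℝ)
      linarith
    refine ⟨Or.inr (by rw [neg_neg]; exact h1), ?_, h3, h4, ?_⟩
    · unfold InG at h2 ⊢
      rw [inner_neg_right, abs_neg]
      exact h2
    · rw [inner_neg_right]
      push Not at hy2
      linarith
  have h3 : (Y.card : ℝ) = Y₁.card + Y₂.card := by
    rw [← hc]; push_cast; ring
  rw [h3]
  linarith

/-- the frames which occur -/
theorem frames (hFRM : ST_FRM) (hUP : ST_UP) (B : Base A S ρ₀ P) :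
    ∃ Φ : Finset (E 2 × E 2), Φ.card ≤ 8 * P.card ∧ ∀ y u ε, Tri S y u ε → ρ₀ < ‖y‖ → ‖y‖ < 1 →
      ∃ τ ν, (τ, ν) ∈ Φ ∧ Fr τ ν ∧ TA S τ ν y ∧ InG τ ν y := by
  classical
  obtain ⟨hF1, hF2⟩ := hFRM
  choose Φ hΦc hΦ using hF2
  choose! w δ hw using B.lin
  refine ⟨P.biUnion fun z => Φ (w z), ?_, fun y u ε T h0 h1 => ?_⟩
  · refine Finset.card_biUnion_le.trans ?_
    refine (Finset.sum_le_card_nsmul P _ 8 fun z _ => hΦc (w z)).trans (le_of_eq ?_)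
    rw [smul_eq_mul, mul_comm]
  · obtain ⟨τ, ν, hF, hTA, hG⟩ := hF1 S y u ε T (B.r0.trans h0.le) h1.le
    refine ⟨τ, ν, ?_, hF, hTA, hG⟩
    obtain ⟨z, hzP, -, -, -, -, -, -, hz⟩ := hUP A S ρ₀ P B τ ν y hF hTA hG h0 h1
    refine Finset.mem_biUnion.2 ⟨z, hzP, hΦ (w z) τ ν hF ?_⟩
    rcases hz with ⟨η, hz⟩ | ⟨η, hz⟩
    · rcases lin_dir (hw z hzP) hz with h | h
      · exact Or.inl h.symm
      · exact Or.inr (Or.inl (by rw [h, neg_neg]))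
    · rcases lin_dir (hw z hzP) hz with h | h
      · exact Or.inr (Or.inr (Or.inl h.symm))
      · exact Or.inr (Or.inr (Or.inr (by rw [h, neg_neg])))

end Unit33

theorem unit (hLEV : ST_LEV) (hFRM : ST_FRM) (hUP : ST_UP) (hCNTF : ST_CNTF) : ST_UNIT := by
  classical
  obtain ⟨M₀, hM⟩ := hLEV
  refine ⟨M₀ + 8 * M₀ * (2 * (5 * M₀ + 4) + 8) + 1, by positivity, fun A S L hA hreg t ht0 ht1 Y hY => ?_⟩
  obtain ⟨ρ₀, P, B, hPM⟩ := hM A S L hA hreg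
  set lg : ℝ := Real.log (1 + Real.log (1 / (1 - t))) with hlg
  have h1t : 0 < 1 - t := sub_pos.2 ht1
  have hl1 : 0 ≤ Real.log (1 / (1 - t)) := Real.log_nonneg (by
    rw [le_div_iff₀ h1t]
    linarith)
  have hl2 : 0 ≤ lg := Real.log_nonneg (by linarith)
  have hPM' : (P.card : ℝ) ≤ M₀ := by exact_mod_cast hPM
  have hM0 : (0 : ℝ) ≤ M₀ := Nat.cast_nonneg _
  set Y₁ := Y.filter fun y => ‖y‖ ≤ ρ₀ with hY₁
  set Y₂ := Y.filter fun y => ¬ ‖y‖ ≤ ρ₀ with hY₂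
  have hc : Y₁.card + Y₂.card = Y.card := Finset.card_filter_add_card_filter_not _
  have h1 : Y₁.card ≤ P.card := Unit33.inner_card B Y₁ (fun y hy => (Finset.mem_filter.1 hy).2)
    fun y hy => (hY y (Finset.mem_filter.1 hy).1).2
  have h2 : (Y₂.card : ℝ) ≤ 8 * M₀ * (2 * (5 * M₀ + 2 * (2 + 2 * lg))) := by
    rcases Y₂.eq_empty_or_nonempty with h0 | ⟨y₀, hy₀⟩
    · rw [h0, Finset.card_empty]
      push_cast
      positivity
    have hmem : ∀ y ∈ Y₂, ρ₀ < ‖y‖ ∧ ‖y‖ < t ∧ ∃ u ε, Tri S y u ε := by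
      intro y hy
      obtain ⟨hy1, hy2⟩ := Finset.mem_filter.1 hy
      obtain ⟨h3, h4⟩ := hY y hy1
      rw [mem_ball, dist_zero_right] at h3
      exact ⟨not_le.1 hy2, h3, h4⟩
    have ht : ρ₀ < t := (hmem y₀ hy₀).1.trans (hmem y₀ hy₀).2.1
    obtain ⟨Φ, hΦc, hΦ⟩ := Unit33.frames hFRM hUP B
    have hsub : Y₂ ⊆ Φ.biUnion fun f => Y₂.filter fun y => Fr f.1 f.2 ∧ TA S f.1 f.2 y ∧
        InG f.1 f.2 y := by
      intro y hy
      obtain ⟨h3, h4, u, ε, T⟩ := hmem y hy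
      obtain ⟨τ, ν, h5, h6, h7, h8⟩ := hΦ y u ε T h3 (h4.trans ht1)
      exact Finset.mem_biUnion.2 ⟨(τ, ν), h5, Finset.mem_filter.2 ⟨hy, h6, h7, h8⟩⟩
    have hone : ∀ f ∈ Φ, ((Y₂.filter fun y => Fr f.1 f.2 ∧ TA S f.1 f.2 y ∧
        InG f.1 f.2 y).card : ℝ) ≤ 2 * (5 * M₀ + 2 * (2 + 2 * lg)) := by
      intro f _
      by_cases hF : Fr f.1 f.2
      · have h3 := Unit33.frame_card hCNTF B ht ht1 hF (Y₂.filter fun y => Fr f.1 f.2 ∧
          TA S f.1 f.2 y ∧ InG f.1 f.2 y) fun y hy => by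
            obtain ⟨hy1, -, hy2, hy3⟩ := Finset.mem_filter.1 hy
            exact ⟨hy2, hy3, (hmem y hy1).1, (hmem y hy1).2.1.le⟩
        linarith
      · have h3 : (Y₂.filter fun y => Fr f.1 f.2 ∧ TA S f.1 f.2 y ∧ InG f.1 f.2 y) = ∅ :=
          Finset.filter_eq_empty_iff.2 fun y _ h => hF h.1
        rw [h3, Finset.card_empty]
        push_cast
        positivity
    have h3 : (Y₂.card : ℝ) ≤ Φ.card * (2 * (5 * M₀ + 2 * (2 + 2 * lg))) := by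
      have h4 := (Finset.card_le_card hsub).trans Finset.card_biUnion_le
      have h5 : (Y₂.card : ℝ) ≤ ∑ f ∈ Φ, ((Y₂.filter fun y => Fr f.1 f.2 ∧ TA S f.1 f.2 y ∧
        InG f.1 f.2 y).card : ℝ) := by exact_mod_cast h4
      refine h5.trans ((Finset.sum_le_card_nsmul Φ _ _ hone).trans (le_of_eq ?_))
      rw [nsmul_eq_mul]
    have h6 : (Φ.card : ℝ) ≤ 8 * M₀ := by
      have h7 : (Φ.card : ℝ) ≤ 8 * P.card := by exact_mod_cast hΦc
      linarith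
    exact h3.trans (mul_le_mul_of_nonneg_right h6 (by positivity))
  have h3 : (Y.card : ℝ) = Y₁.card + Y₂.card := by
    rw [← hc]; push_cast; ring
  have h4 : (Y₁.card : ℝ) ≤ M₀ := le_trans (by exact_mod_cast h1) hPM'
  rw [h3]
  have h5 : 0 ≤ M₀ * lg := mul_nonneg hM0 hl2
  have h6 : 0 ≤ (M₀ : ℝ) * M₀ * lg := mul_nonneg (mul_nonneg hM0 hM0) hl2
  nlinarith

end PU
end H11ST
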